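import Mathlib

/-!
# MP_e1dd62_co: the value of `M(4)`, its configurations, and the graph of the diameters

`Δ(z) = ∏_{i ≠ j} |z_i - z_j|`, and `M(n)` is the maximum of `Δ` over the `n`-tuples of complex
numbers with `|z_i - z_j| ≤ 2` for all `i, j`.

* `M(4) = 4096 (2 - √3)² = 28672 - 16384 √3`, and the maximisers are exactly the quadruples which
  consist of the vertices `a, b, c` of an equilateral triangle with side `2` and of the midpoint `d`
  of the arc from `b` to `c` of the circle with centre `a` and radius `2`: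
  `|d - a| = 2`, `|d - b| = |d - c| = √6 - √2`.
* For every `n ≥ 1` and every maximiser `z`, the graph on the points in which two points are
  adjacent if their distance is exactly `2` is connected. So at least `n - 1` of the distances are
  equal to `2`.

Connectedness: otherwise one of the two parts could be translated by small complex numbers `w`; the
product is a non-constant polynomial in `w`, so `|Δ|` has no local maximum at `w = 0`. For `n = 4` a
connected graph contains a path or a star on the four points, and in both cases the product of the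
remaining three distances is estimated directly.
-/

open Finset

namespace Pool.Agent.Results.MP_e1dd62_co.FourPoints

/-- `Δ(z) = ∏_{i ≠ j} |z_i - z_j|`, the product over all ordered pairs -/
noncomputable def Delta {n : ℕ} (z : Fin n → ℂ) : ℝ :=
  ∏ i, ∏ j ∈ univ.erase i, ‖z i - z j‖

/-- the constraint `|z_i - z_j| ≤ 2` for all `i, j` -/
def Adm {n : ℕ} (z : Fin n → ℂ) : Prop := ∀ i j, ‖z i - z j‖ ≤ 2

/-- `z` is a maximiser of `Δ` under the constraint -/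
def IsMaximiser {n : ℕ} (z : Fin n → ℂ) : Prop :=
  Adm z ∧ ∀ w : Fin n → ℂ, Adm w → Delta w ≤ Delta z

/-- `M(n)`, the supremum of `Δ` over all admissible configurations of `n` points -/
noncomputable def M (n : ℕ) : ℝ := sSup {x | ∃ z : Fin n → ℂ, Adm z ∧ x = Delta z}

/-- the graph of the pairs at distance exactly `2` -/
def diameterGraph {n : ℕ} (z : Fin n → ℂ) : SimpleGraph (Fin n) where
  Adj i j := ‖z i - z j‖ = 2
  symm := ⟨fun i j h => by rw [norm_sub_rev]; exact h⟩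
  loopless := ⟨fun i h => by simp at h⟩

/-- an equilateral triangle `z_0 z_1 z_2` with side `2` and the midpoint `z_3` of the arc from `z_1`
to `z_2` of the circle with centre `z_0` and radius `2` -/
def IsTriangleWithArcMidpoint (z : Fin 4 → ℂ) : Prop :=
  ‖z 0 - z 1‖ = 2 ∧ ‖z 0 - z 2‖ = 2 ∧ ‖z 1 - z 2‖ = 2 ∧ ‖z 0 - z 3‖ = 2 ∧
    ‖z 1 - z 3‖ = √6 - √2 ∧ ‖z 2 - z 3‖ = √6 - √2

lemma Delta_eq {n : ℕ} (z : Fin n → ℂ) :
    Delta z = ∏ i, ∏ j, if i = j then 1 else ‖z i - z j‖ := by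
  unfold Delta
  refine Finset.prod_congr rfl fun i _ => ?_
  have h : (univ.erase i : Finset (Fin n)) = univ.filter (fun j => ¬ (i = j)) := by
    ext j
    simp [eq_comm]
  rw [h, Finset.prod_filter]
  refine Finset.prod_congr rfl fun j _ => ?_
  split_ifs <;> rfl

lemma Delta_perm {n : ℕ} (z : Fin n → ℂ) (σ : Equiv.Perm (Fin n)) :
    Delta (z ∘ σ) = Delta z := by
  rw [Delta_eq, Delta_eq]
  rw [← Equiv.prod_comp σ (fun i => ∏ j, if i = j then 1 else ‖z i - z j‖)]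
  refine Finset.prod_congr rfl fun i _ => ?_
  rw [← Equiv.prod_comp σ (fun j => if σ i = j then 1 else ‖z (σ i) - z j‖)]
  refine Finset.prod_congr rfl fun j _ => ?_
  simp

lemma Delta_continuous (n : ℕ) : Continuous (Delta (n := n)) := by
  unfold Delta
  refine continuous_finsetProd _ fun i _ => continuous_finsetProd _ fun j _ => ?_
  exact ((continuous_apply i).sub (continuous_apply j)).norm

lemma exists_maximiser (n : ℕ) : ∃ z : Fin (n + 1) → ℂ, IsMaximiser z := by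
  have hclosed : IsClosed {z : Fin (n + 1) → ℂ | z 0 = 0 ∧ Adm z} := by
    have h1 : {z : Fin (n + 1) → ℂ | z 0 = 0 ∧ Adm z} =
        {z | z 0 = 0} ∩ ⋂ i, ⋂ j, {z | ‖z i - z j‖ ≤ 2} := by
      ext z
      simp [Adm]
    rw [h1]
    exact (isClosed_eq (continuous_apply 0) continuous_const).inter
      (isClosed_iInter fun i => isClosed_iInter fun j =>
        isClosed_le ((continuous_apply i).sub (continuous_apply j)).norm continuous_const)
  have hsub : {z : Fin (n + 1) → ℂ | z 0 = 0 ∧ Adm z} ⊆ Metric.closedBall 0 2 := by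
    rintro z ⟨h0, hz⟩
    rw [mem_closedBall_zero_iff, pi_norm_le_iff_of_nonneg (by norm_num)]
    intro i
    have := hz i 0
    rwa [h0, sub_zero] at this
  have hcomp := (isCompact_closedBall (0 : Fin (n + 1) → ℂ) 2).of_isClosed_subset hclosed hsub
  obtain ⟨z, hz, hmax⟩ := hcomp.exists_isMaxOn ⟨0, rfl, fun i j => by simp⟩
    (Delta_continuous (n + 1)).continuousOn
  refine ⟨z, hz.2, fun w hw => ?_⟩
  have h1 : (fun i => w i - w 0) ∈ {z : Fin (n + 1) → ℂ | z 0 = 0 ∧ Adm z} := by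
    refine ⟨by simp, fun i j => ?_⟩
    have := hw i j
    simpa using this
  have h2 := hmax h1
  have h3 : Delta (fun i => w i - w 0) = Delta w := by
    unfold Delta
    simp
  rw [← h3]
  exact h2

lemma maximiser_pos {n : ℕ} {z : Fin n → ℂ} (hz : IsMaximiser z) : 0 < Delta z := by
  have hadm : Adm (fun k : Fin n => (((k : ℕ) : ℝ) / n : ℂ)) := by
    intro i j
    have hn : 0 < n := i.pos
    have hn' : (0 : ℝ) < n := by exact_mod_cast hn
    have h1 : ((((i : ℕ) : ℝ) / n : ℂ) - (((j : ℕ) : ℝ) / n : ℂ)) =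
        ((((i : ℕ) : ℝ) / n - ((j : ℕ) : ℝ) / n : ℝ) : ℂ) := by push_cast; ring
    rw [h1, Complex.norm_real, Real.norm_eq_abs, abs_le]
    have hi : ((i : ℕ) : ℝ) / n ≤ 1 := by
      rw [div_le_one hn']; exact_mod_cast i.2.le
    have hj : ((j : ℕ) : ℝ) / n ≤ 1 := by
      rw [div_le_one hn']; exact_mod_cast j.2.le
    have hi0 : 0 ≤ ((i : ℕ) : ℝ) / n := by positivity
    have hj0 : 0 ≤ ((j : ℕ) : ℝ) / n := by positivity
    constructor <;> linarith
  refine lt_of_lt_of_le ?_ (hz.2 _ hadm)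
  unfold Delta
  refine Finset.prod_pos fun i _ => Finset.prod_pos fun j hj => ?_
  rw [norm_pos_iff, sub_ne_zero]
  intro h
  have hn : 0 < n := i.pos
  have hn' : (n : ℂ) ≠ 0 := by exact_mod_cast hn.ne'
  rw [div_left_inj' hn'] at h
  have h2 : (i : ℕ) = (j : ℕ) := by exact_mod_cast h
  exact (Finset.ne_of_mem_erase hj) (Fin.ext h2.symm)

/-- at a maximiser every proper nonempty set of points has a point at distance exactly `2` from a
point outside -/
lemma cut {n : ℕ} {z : Fin n → ℂ} (hz : IsMaximiser z) (I : Finset (Fin n)) {i j : Fin n}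
    (hi : i ∈ I) (hj : j ∉ I) : ∃ a ∈ I, ∃ b ∉ I, ‖z a - z b‖ = 2 := by
  classical
  have hpos := maximiser_pos hz
  by_contra hcon
  push Not at hcon
  have hlt : ∀ a ∈ I, ∀ b ∉ I, ‖z a - z b‖ < 2 := fun a ha b hb =>
    lt_of_le_of_ne (hz.1 a b) (hcon a ha b hb)
  let Y : ℂ → Fin n → ℂ := fun w a => if a ∈ I then z a + w else z a
  let F : ℂ → ℂ := fun w => ∏ a, ∏ b ∈ univ.erase a, (Y w a - Y w b)
  have hY0 : Y 0 = z := by
    funext a
    simp only [Y]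
    split_ifs <;> simp
  have hFn : ∀ w, ‖F w‖ = Delta (Y w) := by
    intro w
    simp only [F, Delta, norm_prod]
  have hF0 : ‖F 0‖ = Delta z := by rw [hFn, hY0]
  have hnear : ∀ᶠ w in nhds (0 : ℂ), ∀ a b, a ∈ I → b ∉ I → ‖z a + w - z b‖ < 2 := by
    rw [Filter.eventually_all]
    intro a
    rw [Filter.eventually_all]
    intro b
    by_cases ha : a ∈ I
    · by_cases hb : b ∈ I
      · exact Filter.Eventually.of_forall fun w _ h => absurd hb h
      · have hc : ContinuousAt (fun w : ℂ => ‖z a + w - z b‖) 0 := by fun_prop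
        have h2 : ‖z a + 0 - z b‖ < 2 := by rw [add_zero]; exact hlt a ha b hb
        have := hc.eventually_lt (continuousAt_const (y := (2 : ℝ))) h2
        filter_upwards [this] with w hw _ _
        exact hw
    · exact Filter.Eventually.of_forall fun w h => absurd h ha
  have hmax : IsLocalMax (norm ∘ F) 0 := by
    filter_upwards [hnear] with w hw
    simp only [Function.comp]
    rw [hFn, hF0]
    apply hz.2
    intro a b
    by_cases ha : a ∈ I
    · by_cases hb : b ∈ I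
      · simp only [Y, if_pos ha, if_pos hb]
        have : z a + w - (z b + w) = z a - z b := by ring
        rw [this]
        exact hz.1 a b
      · simp only [Y, if_pos ha, if_neg hb]
        exact (hw a b ha hb).le
    · by_cases hb : b ∈ I
      · simp only [Y, if_neg ha, if_pos hb]
        rw [norm_sub_rev]
        exact (hw b a hb ha).le
      · simp only [Y, if_neg ha, if_neg hb]
        exact hz.1 a b
  have hupd : ∀ a, Differentiable ℂ (fun w : ℂ => Y w a) := by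
    intro a
    by_cases ha : a ∈ I
    · simp only [Y, if_pos ha]; fun_prop
    · simp only [Y, if_neg ha]; exact differentiable_const _
  have hdiff : Differentiable ℂ F := by
    refine Differentiable.fun_finsetProd fun a _ => Differentiable.fun_finsetProd fun b _ => ?_
    exact (hupd a).sub (hupd b)
  have hloc := Complex.eventually_eq_of_isLocalMax_norm
    (Filter.Eventually.of_forall fun w => hdiff w) hmax
  have hconst : F = fun _ => F 0 := by
    have hF1 : AnalyticOnNhd ℂ F Set.univ := fun w _ => hdiff.analyticAt w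
    have hF2 : AnalyticOnNhd ℂ (fun _ : ℂ => F 0) Set.univ := fun w _ => analyticAt_const
    exact hF1.eq_of_eventuallyEq hF2 hloc
  have hij : j ≠ i := fun h => hj (h ▸ hi)
  have hzero : F (z j - z i) = 0 := by
    simp only [F]
    apply Finset.prod_eq_zero (Finset.mem_univ i)
    apply Finset.prod_eq_zero (i := j)
    · simp [hij]
    · simp only [Y, if_pos hi, if_neg hj]
      ring
  have h1 : F (z j - z i) = F 0 := congrFun hconst (z j - z i)
  rw [← h1, hzero, norm_zero] at hF0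
  linarith

/-- the graph of the diameters of a maximiser is connected -/
lemma diameterGraph_connected {n : ℕ} (hn : 1 ≤ n) {z : Fin n → ℂ} (hz : IsMaximiser z) :
    (diameterGraph z).Connected := by
  classical
  have : Nonempty (Fin n) := ⟨⟨0, hn⟩⟩
  refine ⟨fun i j => ?_⟩
  by_contra hcon
  obtain ⟨a, ha, b, hb, hab⟩ := cut hz (univ.filter fun k => (diameterGraph z).Reachable i k)
    (i := i) (j := j) (by simp) (by simpa using hcon)
  rw [Finset.mem_filter] at ha hb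
  exact hb ⟨Finset.mem_univ _, ha.2.trans (SimpleGraph.Adj.reachable hab)⟩

/-- the path case -/
lemma path_real {p q r s : ℝ} (h1 : p ^ 2 + q ^ 2 = 1) (h2 : r ^ 2 + s ^ 2 = 1)
    (hp : 1 / 2 ≤ p) (hr : 1 / 2 ≤ r) (hK : (p + r - 1) ^ 2 + (q - s) ^ 2 ≤ 1) :
    (1 - p) * (1 - r) * ((p + r - 1) ^ 2 + (q - s) ^ 2) ≤ (2 - √3) ^ 2 / 4 ∧
    ((1 - p) * (1 - r) * ((p + r - 1) ^ 2 + (q - s) ^ 2) = (2 - √3) ^ 2 / 4 →
      ((1 - p = 1 / 2 ∧ 1 - r = (2 - √3) / 2) ∨ (1 - p = (2 - √3) / 2 ∧ 1 - r = 1 / 2)) ∧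
      (p + r - 1) ^ 2 + (q - s) ^ 2 = 2 - √3) := by
  have h3 : √3 ^ 2 = 3 := Real.sq_sqrt (by norm_num)
  have h3a : 1.7 < √3 := by
    rw [Real.lt_sqrt (by norm_num)]; norm_num
  have h3b : √3 < 1.8 := by
    rw [Real.sqrt_lt' (by norm_num)]; norm_num
  have hB : 0 < (2 - √3) ^ 2 / 4 := by
    have : 0 < 2 - √3 := by linarith
    positivity
  have hp1 : p ≤ 1 := (sq_le_one_iff₀ (by linarith)).1 (by linarith [sq_nonneg q])
  have hr1 : r ≤ 1 := (sq_le_one_iff₀ (by linarith)).1 (by linarith [sq_nonneg s])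
  obtain ⟨X, hX⟩ : ∃ X, X = 1 - p := ⟨_, rfl⟩
  obtain ⟨Y, hY⟩ : ∃ Y, Y = 1 - r := ⟨_, rfl⟩
  obtain ⟨K, hKdef⟩ : ∃ K, K = (p + r - 1) ^ 2 + (q - s) ^ 2 := ⟨_, rfl⟩
  rw [← hX, ← hY, ← hKdef]
  rw [← hKdef] at hK
  have hpX : p = 1 - X := by linarith
  have hrY : r = 1 - Y := by linarith
  have hX0 : 0 ≤ X := by linarith
  have hY0 : 0 ≤ Y := by linarith
  have hX1 : X ≤ 1 / 2 := by linarith
  have hY1 : Y ≤ 1 / 2 := by linarith
  have hKe : K = 1 + 2 * (X * Y) - 2 * (q * s) := by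
    rw [hKdef]
    have e1 : q ^ 2 = 1 - p ^ 2 := by linarith
    have e2 : s ^ 2 = 1 - r ^ 2 := by linarith
    have : (p + r - 1) ^ 2 + (q - s) ^ 2 = (p + r - 1) ^ 2 + q ^ 2 + s ^ 2 - 2 * (q * s) := by ring
    rw [this, e1, e2, hpX, hrY]; ring
  have hqs : (q * s) ^ 2 = X * Y * ((2 - X) * (2 - Y)) := by
    have e1 : q ^ 2 = X * (2 - X) := by rw [hpX] at h1; linear_combination h1
    have e2 : s ^ 2 = Y * (2 - Y) := by rw [hrY] at h2; linear_combination h2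
    rw [mul_pow, e1, e2]; ring
  rcases (mul_nonneg hX0 hY0).eq_or_lt with h0 | h0
  · rw [← h0]
    refine ⟨by rw [zero_mul]; exact hB.le, fun h => ?_⟩
    rw [zero_mul] at h
    exact absurd h hB.ne
  · obtain ⟨m, hm⟩ : ∃ m, m = √(X * Y) := ⟨_, rfl⟩
    have hm0 : 0 < m := by rw [hm]; exact Real.sqrt_pos.2 h0
    have hm2 : m ^ 2 = X * Y := by rw [hm]; exact Real.sq_sqrt h0.le
    have hmh : m ^ 2 ≤ 1 / 4 := by
      rw [hm2]
      have := mul_le_mul hX1 hY1 hY0 (by norm_num : (0 : ℝ) ≤ 1 / 2)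
      linarith
    obtain ⟨k, hk⟩ : ∃ k, k = √(1 - m ^ 2) := ⟨_, rfl⟩
    have hk0 : 0 ≤ k := by rw [hk]; exact Real.sqrt_nonneg _
    have hk2 : k ^ 2 = 1 - m ^ 2 := by rw [hk]; exact Real.sq_sqrt (by linarith)
    have hqs0 : 0 < q * s := by
      have := hKe ▸ hK
      linarith
    -- lower bound for q s
    have hcor : 0 ≤ (1 / 2 - X) * (1 / 2 - Y) := mul_nonneg (by linarith) (by linarith)
    have hqs2 : (q * s) ^ 2 = (√3 * m * k) ^ 2 + 2 * m ^ 2 * ((1 / 2 - X) * (1 / 2 - Y)) * 2 := by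
      rw [hqs, mul_pow, mul_pow, h3, hk2, ← hm2]
      have : (2 - X) * (2 - Y) = 3 * (1 - m ^ 2) + 4 * ((1 / 2 - X) * (1 / 2 - Y)) := by
        rw [hm2]; ring
      rw [this]; ring
    have hqs3 : √3 * m * k ≤ q * s := by
      have : (√3 * m * k) ^ 2 ≤ (q * s) ^ 2 := by
        rw [hqs2]; linarith [mul_nonneg (sq_nonneg m) hcor]
      exact (sq_le_sq₀ (by positivity) hqs0.le).1 this
    have hK2 : K ≤ (k - √3 * m) ^ 2 := by
      rw [hKe, ← hm2]
      have e0 : (k - √3 * m) ^ 2 = 1 + 2 * m ^ 2 - 2 * (√3 * m * k) := by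
        linear_combination hk2 + m ^ 2 * h3
      rw [e0]; linarith
    have hkm : √3 * m ≤ k := by
      have : (√3 * m) ^ 2 ≤ k ^ 2 := by rw [mul_pow, h3, hk2]; linarith
      exact (sq_le_sq₀ (by positivity) hk0).1 this
    -- the last inequality
    have hsq : (2 - √3) / 2 - m * (k - √3 * m) = ((2 - √3) * k ^ 2 - 2 * m * k + (2 + √3) * m ^ 2) / 2 := by
      rw [hk2]; ring
    have hsq2 : (2 - √3) * ((2 - √3) * k ^ 2 - 2 * m * k + (2 + √3) * m ^ 2) =
        ((2 - √3) * k - m) ^ 2 := by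
      have : (2 - √3) * (2 + √3) = 1 := by linear_combination (-1 : ℝ) * h3
      linear_combination m ^ 2 * this
    have h23 : 0 < 2 - √3 := by linarith
    have hfin : m * (k - √3 * m) ≤ (2 - √3) / 2 := by
      have : 0 ≤ (2 - √3) * k ^ 2 - 2 * m * k + (2 + √3) * m ^ 2 := by
        by_contra hneg
        push Not at hneg
        have := mul_neg_of_pos_of_neg h23 hneg
        rw [hsq2] at this
        exact absurd (sq_nonneg _) (not_le.2 this)
      linarith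
    have hmk0 : 0 ≤ m * (k - √3 * m) := mul_nonneg hm0.le (by linarith)
    have hfin2 : (m * (k - √3 * m)) ^ 2 ≤ (2 - √3) ^ 2 / 4 := by
      have := (sq_le_sq₀ hmk0 (by linarith : (0 : ℝ) ≤ (2 - √3) / 2)).2 hfin
      calc _ ≤ _ := this
        _ = _ := by ring
    have hchain : X * Y * K ≤ (m * (k - √3 * m)) ^ 2 := by
      rw [mul_pow, ← hm2]
      exact mul_le_mul_of_nonneg_left hK2 (sq_nonneg m)
    refine ⟨hchain.trans hfin2, fun heq => ?_⟩
    have e1 : (m * (k - √3 * m)) ^ 2 = (2 - √3) ^ 2 / 4 := le_antisymm hfin2 (heq ▸ hchain)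
    have e2 : X * Y * K = (m * (k - √3 * m)) ^ 2 := by rw [heq, e1]
    have e3 : K = (k - √3 * m) ^ 2 := by
      rw [mul_pow, ← hm2] at e2
      exact mul_left_cancel₀ (pow_ne_zero 2 hm0.ne') e2
    have e4 : m * (k - √3 * m) = (2 - √3) / 2 := by
      have : (m * (k - √3 * m)) ^ 2 = ((2 - √3) / 2) ^ 2 := by rw [e1]; ring
      exact (sq_eq_sq₀ hmk0 (by linarith)).1 this
    have e5 : (2 - √3) * k - m = 0 := by
      have : ((2 - √3) * k - m) ^ 2 = 0 := by 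
        rw [← hsq2]
        have h8 : (2 - √3) * k ^ 2 - 2 * m * k + (2 + √3) * m ^ 2 = 0 := by
          rw [e4] at hsq; linarith
        rw [h8, mul_zero]
      exact pow_eq_zero_iff two_ne_zero |>.1 this
    have e6 : m ^ 2 = (2 - √3) / 4 := by
      have : m ^ 2 = (2 - √3) ^ 2 * (1 - m ^ 2) := by
        have : m = (2 - √3) * k := by linarith
        rw [← hk2]; nth_rewrite 1 [this]; ring
      have h7 : (2 - √3) ^ 2 = 7 - 4 * √3 := by linear_combination h3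
      rw [h7] at this
      have h8 : m ^ 2 * (8 - 4 * √3) = 7 - 4 * √3 := by linarith
      have h9 : (2 - √3) / 4 * (8 - 4 * √3) = 7 - 4 * √3 := by linear_combination h3
      have h10 : (8 - 4 * √3) ≠ 0 := by linarith
      exact mul_right_cancel₀ h10 (h8.trans h9.symm)
    have e7 : q * s = √3 * m * k := by
      have : (k - √3 * m) ^ 2 = 1 + 2 * m ^ 2 - 2 * (√3 * m * k) := by
        have : (k - √3 * m) ^ 2 = k ^ 2 + √3 ^ 2 * m ^ 2 - 2 * (√3 * m * k) := by ring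
        rw [this, h3, hk2]; ring
      rw [hKe, ← hm2, this] at e3
      linarith
    have e8 : (1 / 2 - X) * (1 / 2 - Y) = 0 := by
      rw [e7] at hqs2
      have : 2 * m ^ 2 * ((1 / 2 - X) * (1 / 2 - Y)) * 2 = 0 := by linarith
      have hm2' : m ^ 2 ≠ 0 := pow_ne_zero 2 hm0.ne'
      rcases mul_eq_zero.1 this with h | h
      · rcases mul_eq_zero.1 h with h | h
        · rcases mul_eq_zero.1 h with h | h
          · norm_num at h
          · exact absurd h hm2'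
        · exact h
      · norm_num at h
    have e9 : K = 2 - √3 := by
      have : m ^ 2 * K = (2 - √3) ^ 2 / 4 := by rw [hm2]; exact heq
      rw [e6] at this
      have : (2 - √3) * (K - (2 - √3)) = 0 := by linarith
      rcases mul_eq_zero.1 this with h | h
      · linarith
      · linarith
    refine ⟨?_, e9⟩
    have e10 : X * Y = (2 - √3) / 4 := by rw [← hm2, e6]
    rcases mul_eq_zero.1 e8 with h | h
    · left
      have hX' : X = 1 / 2 := by linarith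
      rw [hX'] at e10
      exact ⟨hX', by linarith⟩
    · right
      have hY' : Y = 1 / 2 := by linarith
      rw [hY'] at e10
      exact ⟨by linarith, hY'⟩

/-- the star case -/
lemma star_real {p q r s : ℝ} (h1 : p ^ 2 + q ^ 2 = 1) (h2 : r ^ 2 + s ^ 2 = 1)
    (hp : 1 / 2 ≤ p) (hr : 1 / 2 ≤ r) (hG : 1 - p * r + q * s ≤ 1 / 2)
    (hGp : 1 - p ≤ 1 - p * r + q * s) (hGr : 1 - r ≤ 1 - p * r + q * s) :
    (1 - p) * (1 - r) * (1 - p * r + q * s) ≤ (2 - √3) ^ 2 / 8 ∧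
    ((1 - p) * (1 - r) * (1 - p * r + q * s) = (2 - √3) ^ 2 / 8 →
      1 - p = (2 - √3) / 2 ∧ 1 - r = (2 - √3) / 2 ∧ 1 - p * r + q * s = 1 / 2) := by
  have h3 : √3 ^ 2 = 3 := Real.sq_sqrt (by norm_num)
  have h3a : 1.7 < √3 := by
    rw [Real.lt_sqrt (by norm_num)]; norm_num
  have h3b : √3 < 1.8 := by
    rw [Real.sqrt_lt' (by norm_num)]; norm_num
  have hB : 0 < (2 - √3) ^ 2 / 8 := by
    have : 0 < 2 - √3 := by linarith
    positivity
  have hp1 : p ≤ 1 := (sq_le_one_iff₀ (by linarith)).1 (by linarith [sq_nonneg q])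
  have hr1 : r ≤ 1 := (sq_le_one_iff₀ (by linarith)).1 (by linarith [sq_nonneg s])
  obtain ⟨X, hX⟩ : ∃ X, X = 1 - p := ⟨_, rfl⟩
  obtain ⟨Y, hY⟩ : ∃ Y, Y = 1 - r := ⟨_, rfl⟩
  obtain ⟨G, hGdef⟩ : ∃ G, G = 1 - p * r + q * s := ⟨_, rfl⟩
  rw [← hX, ← hY, ← hGdef]
  rw [← hX, ← hGdef] at hGp
  rw [← hY, ← hGdef] at hGr
  rw [← hGdef] at hG
  have hpX : p = 1 - X := by linarith
  have hrY : r = 1 - Y := by linarith
  have hX0 : 0 ≤ X := by linarith
  have hY0 : 0 ≤ Y := by linarith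
  have hX1 : X ≤ 1 / 2 := by linarith
  have hY1 : Y ≤ 1 / 2 := by linarith
  have hqs : (q * s) ^ 2 = X * Y * ((2 - X) * (2 - Y)) := by
    have e1 : q ^ 2 = X * (2 - X) := by rw [hpX] at h1; linear_combination h1
    have e2 : s ^ 2 = Y * (2 - Y) := by rw [hrY] at h2; linear_combination h2
    rw [mul_pow, e1, e2]; ring
  have hGe : G = X + Y - X * Y + q * s := by rw [hGdef, hpX, hrY]; ring
  rcases (mul_nonneg hX0 hY0).eq_or_lt with h0 | h0
  · rw [← h0]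
    refine ⟨by rw [zero_mul]; exact hB.le, fun h => ?_⟩
    rw [zero_mul] at h
    exact absurd h hB.ne
  · have hXp : 0 < X := by
      rcases hX0.eq_or_lt with h | h
      · rw [← h, zero_mul] at h0; exact absurd h0 (lt_irrefl _)
      · exact h
    have hYp : 0 < Y := by
      rcases hY0.eq_or_lt with h | h
      · rw [← h, mul_zero] at h0; exact absurd h0 (lt_irrefl _)
      · exact h
    have hqs0 : 0 < q * s := by
      by_contra hneg
      push Not at hneg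
      have a1 : -(q * s) ≤ Y * (1 - X) := by rw [hGe] at hGp; linarith
      have a2 : -(q * s) ≤ X * (1 - Y) := by rw [hGe] at hGr; linarith
      have a3 : (-(q * s)) * (-(q * s)) ≤ (Y * (1 - X)) * (X * (1 - Y)) :=
        mul_le_mul a1 a2 (by linarith) (mul_nonneg hY0 (by linarith))
      have a4 : X * Y * ((2 - X) * (2 - Y)) ≤ X * Y * ((1 - X) * (1 - Y)) := by
        rw [← hqs]
        calc (q * s) ^ 2 = (-(q * s)) * (-(q * s)) := by ring
          _ ≤ _ := a3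
          _ = _ := by ring
      have a5 := le_of_mul_le_mul_left a4 h0
      linarith [(by ring : (2 - X) * (2 - Y) - (1 - X) * (1 - Y) = 3 - X - Y)]
    obtain ⟨m, hm⟩ : ∃ m, m = √(X * Y) := ⟨_, rfl⟩
    have hm0 : 0 < m := by rw [hm]; exact Real.sqrt_pos.2 h0
    have hm2 : m ^ 2 = X * Y := by rw [hm]; exact Real.sq_sqrt h0.le
    have hmh : m ^ 2 ≤ 1 / 4 := by
      rw [hm2]
      have := mul_le_mul hX1 hY1 hY0 (by norm_num : (0 : ℝ) ≤ 1 / 2)
      linarith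
    have hmh2 : m ≤ 1 / 2 := by
      have : m ^ 2 ≤ (1 / 2) ^ 2 := by linarith
      exact (sq_le_sq₀ hm0.le (by norm_num)).1 this
    obtain ⟨w, hw⟩ : ∃ w, w = √((2 - X) * (2 - Y)) := ⟨_, rfl⟩
    have hw0 : 0 ≤ w := by rw [hw]; exact Real.sqrt_nonneg _
    have hw2 : w ^ 2 = (2 - X) * (2 - Y) := by
      rw [hw]; exact Real.sq_sqrt (mul_nonneg (by linarith) (by linarith))
    have hqsw : q * s = m * w := by
      have : (q * s) ^ 2 = (m * w) ^ 2 := by rw [hqs, mul_pow, hm2, hw2]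
      exact (sq_eq_sq₀ hqs0.le (by positivity)).1 this
    obtain ⟨δ, hδ⟩ : ∃ δ, δ = X + Y - 2 * m := ⟨_, rfl⟩
    have hδ0 : 0 ≤ δ := by
      rw [hδ]
      have : (2 * m) ^ 2 ≤ (X + Y) ^ 2 := by
        rw [mul_pow, hm2]
        linarith [sq_nonneg (X - Y), (by ring : (X + Y) ^ 2 - 2 ^ 2 * (X * Y) = (X - Y) ^ 2)]
      have := (sq_le_sq₀ (by positivity) (by linarith)).1 this
      linarith
    have hδ1 : δ ≤ 1 := by rw [hδ]; linarith
    have hw3 : w ^ 2 = (2 - m) ^ 2 - 2 * δ := by rw [hw2, hδ]; linear_combination (-1 : ℝ) * hm2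
    have hwlow : 2 - m - (3 / 2) * δ ≤ w := by
      rcases le_or_gt (2 - m - (3 / 2) * δ) 0 with h | h
      · linarith
      · have : (2 - m - (3 / 2) * δ) ^ 2 ≤ w ^ 2 := by
          rw [hw3]
          have h7 : 0 ≤ δ * (4 - 3 * m - 9 / 4 * δ) := mul_nonneg hδ0 (by linarith)
          linarith [(by ring : (2 - m) ^ 2 - 2 * δ - (2 - m - (3 / 2) * δ) ^ 2 =
            δ * (4 - 3 * m - 9 / 4 * δ))]
        exact (sq_le_sq₀ h.le hw0).1 this
    have hGlow : 4 * m - 2 * m ^ 2 + δ / 4 ≤ G := by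
      rw [hGe, hqsw, ← hm2]
      have : m * (2 - m - (3 / 2) * δ) ≤ m * w := mul_le_mul_of_nonneg_left hwlow hm0.le
      have h8 : 0 ≤ δ * (3 / 4 - 3 / 2 * m) := mul_nonneg hδ0 (by linarith)
      have h9 : X + Y = 2 * m + δ := by rw [hδ]; ring
      rw [h9]
      linarith [(by ring : m * (2 - m - (3 / 2) * δ) = 2 * m - m ^ 2 - 3 / 2 * (m * δ)),
        (by ring : δ * (3 / 4 - 3 / 2 * m) = 3 / 4 * δ - 3 / 2 * (m * δ))]
    have hmfin : m ≤ (2 - √3) / 2 := by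
      by_contra hneg
      push Not at hneg
      have : 0 < (m - (2 - √3) / 2) * ((2 + √3) / 2 - m) := mul_pos (by linarith) (by linarith)
      have h8 : (m - (2 - √3) / 2) * ((2 + √3) / 2 - m) = 2 * m - m ^ 2 - 1 / 4 := by
        linear_combination (1 / 4 : ℝ) * h3
      rw [h8] at this
      linarith
    have hmsq : m ^ 2 ≤ (2 - √3) ^ 2 / 4 := by
      have := (sq_le_sq₀ hm0.le (by linarith : (0 : ℝ) ≤ (2 - √3) / 2)).2 hmfin
      calc _ ≤ _ := this
        _ = _ := by ring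
    have hG0 : 0 < G := by
      rw [hGe]
      have : X * Y ≤ X * 1 := mul_le_mul_of_nonneg_left (by linarith) hX0
      linarith
    constructor
    · rw [← hm2]
      calc m ^ 2 * G ≤ (2 - √3) ^ 2 / 4 * (1 / 2) := mul_le_mul hmsq hG hG0.le (by positivity)
        _ = _ := by ring
    · intro heq
      rw [← hm2] at heq
      have hGh : G = 1 / 2 := by
        by_contra hne
        have hlt : G < 1 / 2 := lt_of_le_of_ne hG hne
        have : m ^ 2 * G < m ^ 2 * (1 / 2) := mul_lt_mul_of_pos_left hlt (by positivity)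
        linarith
      have hme : m = (2 - √3) / 2 := by
        rw [hGh] at heq
        have : m ^ 2 = ((2 - √3) / 2) ^ 2 := by linarith
        exact (sq_eq_sq₀ hm0.le (by linarith)).1 this
      have hδe : δ = 0 := by
        rw [hGh, hme] at hGlow
        have h8 : 4 * ((2 - √3) / 2) - 2 * ((2 - √3) / 2) ^ 2 = 1 / 2 := by
          linear_combination (-(1 / 2) : ℝ) * h3
        linarith
      have hsum : X + Y = 2 * m := by linarith
      have hXY : X = Y := by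
        have : (X - Y) ^ 2 = 0 := by
          have h8 : (X - Y) ^ 2 = (X + Y) ^ 2 - 4 * (X * Y) := by ring
          rw [h8, hsum, ← hm2]; ring
        have := pow_eq_zero_iff two_ne_zero |>.1 this
        linarith
      refine ⟨by linarith, by linarith, hGh⟩


lemma norm_sq_eq (w : ℂ) : ‖w‖ ^ 2 = w.re ^ 2 + w.im ^ 2 := by
  rw [Complex.sq_norm, Complex.normSq_apply]; ring

lemma sqrt_facts : √3 ^ 2 = 3 ∧ 0 < 2 - √3 := by
  refine ⟨Real.sq_sqrt (by norm_num), ?_⟩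
  have : √3 < 1.8 := by
    rw [Real.sqrt_lt' (by norm_num)]; norm_num
  linarith

/-- four points `a, b, c, d` with `|a - b| = |b - c| = |c - d| = 2` -/
lemma path4 {a b c d : ℂ} (hab : ‖a - b‖ = 2) (hbc : ‖b - c‖ = 2) (hcd : ‖c - d‖ = 2)
    (hac : ‖a - c‖ ≤ 2) (hbd : ‖b - d‖ ≤ 2) (had : ‖a - d‖ ≤ 2) :
    ‖a - c‖ ^ 2 * ‖b - d‖ ^ 2 * ‖a - d‖ ^ 2 ≤ 64 * (2 - √3) ^ 2 ∧
    (‖a - c‖ ^ 2 * ‖b - d‖ ^ 2 * ‖a - d‖ ^ 2 = 64 * (2 - √3) ^ 2 →
      ((‖a - c‖ ^ 2 = 4 ∧ ‖b - d‖ ^ 2 = 4 * (2 - √3)) ∨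
        (‖a - c‖ ^ 2 = 4 * (2 - √3) ∧ ‖b - d‖ ^ 2 = 4)) ∧ ‖a - d‖ ^ 2 = 4 * (2 - √3)) := by
  have e1 := norm_sq_eq (a - b)
  have e2 := norm_sq_eq (b - c)
  have e3 := norm_sq_eq (c - d)
  have e4 := norm_sq_eq (a - c)
  have e5 := norm_sq_eq (b - d)
  have e6 := norm_sq_eq (a - d)
  have i4 : ‖a - c‖ ^ 2 ≤ 4 := by nlinarith [norm_nonneg (a - c)]
  have i5 : ‖b - d‖ ^ 2 ≤ 4 := by nlinarith [norm_nonneg (b - d)]
  have i6 : ‖a - d‖ ^ 2 ≤ 4 := by nlinarith [norm_nonneg (a - d)]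
  rw [hab] at e1
  rw [hbc] at e2
  rw [hcd] at e3
  simp only [Complex.sub_re, Complex.sub_im] at e1 e2 e3 e4 e5 e6
  obtain ⟨u1, hu1⟩ : ∃ x, x = a.re - b.re := ⟨_, rfl⟩
  obtain ⟨u2, hu2⟩ : ∃ x, x = a.im - b.im := ⟨_, rfl⟩
  obtain ⟨w1, hw1⟩ : ∃ x, x = c.re - b.re := ⟨_, rfl⟩
  obtain ⟨w2, hw2⟩ : ∃ x, x = c.im - b.im := ⟨_, rfl⟩
  obtain ⟨v1, hv1⟩ : ∃ x, x = d.re - c.re := ⟨_, rfl⟩
  obtain ⟨v2, hv2⟩ : ∃ x, x = d.im - c.im := ⟨_, rfl⟩
  have f1 : u1 ^ 2 + u2 ^ 2 = 4 := by rw [hu1, hu2]; linarith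
  have f2 : w1 ^ 2 + w2 ^ 2 = 4 := by
    rw [hw1, hw2]; linarith [(by ring : (c.re - b.re) ^ 2 + (c.im - b.im) ^ 2 =
      (b.re - c.re) ^ 2 + (b.im - c.im) ^ 2)]
  have f3 : v1 ^ 2 + v2 ^ 2 = 4 := by
    rw [hv1, hv2]; linarith [(by ring : (d.re - c.re) ^ 2 + (d.im - c.im) ^ 2 =
      (c.re - d.re) ^ 2 + (c.im - d.im) ^ 2)]
  obtain ⟨p, hp⟩ : ∃ x, x = (u1 * w1 + u2 * w2) / 4 := ⟨_, rfl⟩
  obtain ⟨q, hq⟩ : ∃ x, x = (u2 * w1 - u1 * w2) / 4 := ⟨_, rfl⟩
  obtain ⟨r, hr⟩ : ∃ x, x = -(v1 * w1 + v2 * w2) / 4 := ⟨_, rfl⟩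
  obtain ⟨s, hs⟩ : ∃ x, x = (v2 * w1 - v1 * w2) / 4 := ⟨_, rfl⟩
  have g1 : p ^ 2 + q ^ 2 = 1 := by
    rw [hp, hq]; linear_combination (1 / 16) * (w1 ^ 2 + w2 ^ 2) * f1 + (1 / 4) * f2
  have g2 : r ^ 2 + s ^ 2 = 1 := by
    rw [hr, hs]; linear_combination (1 / 16) * (w1 ^ 2 + w2 ^ 2) * f3 + (1 / 4) * f2
  have k4 : ‖a - c‖ ^ 2 = 8 * (1 - p) := by
    have : (a.re - c.re) ^ 2 + (a.im - c.im) ^ 2 = (u1 - w1) ^ 2 + (u2 - w2) ^ 2 := by
      rw [hu1, hu2, hw1, hw2]; ring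
    rw [e4, this, hp]; linear_combination f1 + f2
  have k5 : ‖b - d‖ ^ 2 = 8 * (1 - r) := by
    have : (b.re - d.re) ^ 2 + (b.im - d.im) ^ 2 = (w1 + v1) ^ 2 + (w2 + v2) ^ 2 := by
      rw [hv1, hv2, hw1, hw2]; ring
    rw [e5, this, hr]; linear_combination f3 + f2
  have k6 : ‖a - d‖ ^ 2 = 4 * ((p + r - 1) ^ 2 + (q - s) ^ 2) := by
    have h1 : (a.re - d.re) ^ 2 + (a.im - d.im) ^ 2 = (u1 - w1 - v1) ^ 2 + (u2 - w2 - v2) ^ 2 := by
      rw [hu1, hu2, hv1, hv2, hw1, hw2]; ring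
    have h2 : (p + r - 1) ^ 2 + (q - s) ^ 2 = (p ^ 2 + q ^ 2) + (r ^ 2 + s ^ 2) + 1 - 2 * p - 2 * r +
        2 * (p * r - q * s) := by ring
    have h3 : p * r - q * s = -(u1 * v1 + u2 * v2) / 4 := by
      rw [hp, hq, hr, hs]
      linear_combination (-(1 / 16)) * (u1 * v1 + u2 * v2) * f2
    rw [e6, h1, h2, g1, g2, h3, hp, hr]
    linear_combination f1 + f2 + f3
  have l1 := path_real g1 g2 (by linarith) (by linarith) (by linarith)
  have prod : ‖a - c‖ ^ 2 * ‖b - d‖ ^ 2 * ‖a - d‖ ^ 2 =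
      256 * ((1 - p) * (1 - r) * ((p + r - 1) ^ 2 + (q - s) ^ 2)) := by
    rw [k4, k5, k6]; ring
  refine ⟨by rw [prod]; linarith [l1.1], fun h => ?_⟩
  rw [prod] at h
  obtain ⟨h1, h2⟩ := l1.2 (by linarith)
  refine ⟨?_, by rw [k6, h2]⟩
  rcases h1 with ⟨h1, h3⟩ | ⟨h1, h3⟩
  · left; rw [k4, k5, h1, h3]; constructor <;> ring
  · right; rw [k4, k5, h1, h3]; constructor <;> ring

/-- four points with `|a - b| = |a - c| = |a - d| = 2`, and `|b - c|` the largest other distance -/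
lemma star4 {a b c d : ℂ} (hab : ‖a - b‖ = 2) (hac : ‖a - c‖ = 2) (had : ‖a - d‖ = 2)
    (hbc : ‖b - c‖ ≤ 2) (hbd : ‖b - d‖ ≤ ‖b - c‖) (hcd : ‖c - d‖ ≤ ‖b - c‖) :
    ‖b - c‖ ^ 2 * ‖b - d‖ ^ 2 * ‖c - d‖ ^ 2 ≤ 64 * (2 - √3) ^ 2 ∧
    (‖b - c‖ ^ 2 * ‖b - d‖ ^ 2 * ‖c - d‖ ^ 2 = 64 * (2 - √3) ^ 2 →
      ‖b - c‖ ^ 2 = 4 ∧ ‖b - d‖ ^ 2 = 4 * (2 - √3) ∧ ‖c - d‖ ^ 2 = 4 * (2 - √3)) := by
  have e1 := norm_sq_eq (a - b)
  have e2 := norm_sq_eq (a - c)
  have e3 := norm_sq_eq (a - d)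
  have e4 := norm_sq_eq (b - c)
  have e5 := norm_sq_eq (b - d)
  have e6 := norm_sq_eq (c - d)
  have i4 : ‖b - c‖ ^ 2 ≤ 4 := by nlinarith [norm_nonneg (b - c)]
  have i5 : ‖b - d‖ ^ 2 ≤ ‖b - c‖ ^ 2 := pow_le_pow_left₀ (norm_nonneg _) hbd 2
  have i6 : ‖c - d‖ ^ 2 ≤ ‖b - c‖ ^ 2 := pow_le_pow_left₀ (norm_nonneg _) hcd 2
  rw [hab] at e1
  rw [hac] at e2
  rw [had] at e3
  simp only [Complex.sub_re, Complex.sub_im] at e1 e2 e3 e4 e5 e6
  obtain ⟨u1, hu1⟩ : ∃ x, x = b.re - a.re := ⟨_, rfl⟩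
  obtain ⟨u2, hu2⟩ : ∃ x, x = b.im - a.im := ⟨_, rfl⟩
  obtain ⟨w1, hw1⟩ : ∃ x, x = d.re - a.re := ⟨_, rfl⟩
  obtain ⟨w2, hw2⟩ : ∃ x, x = d.im - a.im := ⟨_, rfl⟩
  obtain ⟨v1, hv1⟩ : ∃ x, x = c.re - a.re := ⟨_, rfl⟩
  obtain ⟨v2, hv2⟩ : ∃ x, x = c.im - a.im := ⟨_, rfl⟩
  have f1 : u1 ^ 2 + u2 ^ 2 = 4 := by
    rw [hu1, hu2]; linarith [(by ring : (b.re - a.re) ^ 2 + (b.im - a.im) ^ 2 =
      (a.re - b.re) ^ 2 + (a.im - b.im) ^ 2)]
  have f2 : w1 ^ 2 + w2 ^ 2 = 4 := by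
    rw [hw1, hw2]; linarith [(by ring : (d.re - a.re) ^ 2 + (d.im - a.im) ^ 2 =
      (a.re - d.re) ^ 2 + (a.im - d.im) ^ 2)]
  have f3 : v1 ^ 2 + v2 ^ 2 = 4 := by
    rw [hv1, hv2]; linarith [(by ring : (c.re - a.re) ^ 2 + (c.im - a.im) ^ 2 =
      (a.re - c.re) ^ 2 + (a.im - c.im) ^ 2)]
  obtain ⟨p, hp⟩ : ∃ x, x = (u1 * w1 + u2 * w2) / 4 := ⟨_, rfl⟩
  obtain ⟨q, hq⟩ : ∃ x, x = (u2 * w1 - u1 * w2) / 4 := ⟨_, rfl⟩
  obtain ⟨r, hr⟩ : ∃ x, x = (v1 * w1 + v2 * w2) / 4 := ⟨_, rfl⟩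
  obtain ⟨s, hs⟩ : ∃ x, x = -(v2 * w1 - v1 * w2) / 4 := ⟨_, rfl⟩
  have g1 : p ^ 2 + q ^ 2 = 1 := by
    rw [hp, hq]; linear_combination (1 / 16) * (w1 ^ 2 + w2 ^ 2) * f1 + (1 / 4) * f2
  have g2 : r ^ 2 + s ^ 2 = 1 := by
    rw [hr, hs]; linear_combination (1 / 16) * (w1 ^ 2 + w2 ^ 2) * f3 + (1 / 4) * f2
  have k5 : ‖b - d‖ ^ 2 = 8 * (1 - p) := by
    have : (b.re - d.re) ^ 2 + (b.im - d.im) ^ 2 = (u1 - w1) ^ 2 + (u2 - w2) ^ 2 := by
      rw [hu1, hu2, hw1, hw2]; ring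
    rw [e5, this, hp]; linear_combination f1 + f2
  have k6 : ‖c - d‖ ^ 2 = 8 * (1 - r) := by
    have : (c.re - d.re) ^ 2 + (c.im - d.im) ^ 2 = (v1 - w1) ^ 2 + (v2 - w2) ^ 2 := by
      rw [hv1, hv2, hw1, hw2]; ring
    rw [e6, this, hr]; linear_combination f3 + f2
  have k4 : ‖b - c‖ ^ 2 = 8 * (1 - p * r + q * s) := by
    have h1 : (b.re - c.re) ^ 2 + (b.im - c.im) ^ 2 = (u1 - v1) ^ 2 + (u2 - v2) ^ 2 := by
      rw [hu1, hu2, hv1, hv2]; ring
    have h3 : p * r - q * s = (u1 * v1 + u2 * v2) / 4 := by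
      rw [hp, hq, hr, hs]
      linear_combination (1 / 16) * (u1 * v1 + u2 * v2) * f2
    have h4 : 8 * (1 - p * r + q * s) = 8 - 8 * (p * r - q * s) := by ring
    rw [e4, h1, h4, h3]
    linear_combination f1 + f3
  have l1 := star_real g1 g2 (by linarith) (by linarith) (by linarith) (by linarith) (by linarith)
  have prod : ‖b - c‖ ^ 2 * ‖b - d‖ ^ 2 * ‖c - d‖ ^ 2 =
      512 * ((1 - p) * (1 - r) * (1 - p * r + q * s)) := by
    rw [k4, k5, k6]; ring
  refine ⟨by rw [prod]; linarith [l1.1], fun h => ?_⟩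
  rw [prod] at h
  obtain ⟨h1, h2, h3⟩ := l1.2 (by linarith)
  refine ⟨by rw [k4, h3]; norm_num, by rw [k5, h1]; ring, by rw [k6, h2]; ring⟩


lemma Delta_four (z : Fin 4 → ℂ) : Delta z = ‖z 0 - z 1‖ ^ 2 * ‖z 0 - z 2‖ ^ 2 * ‖z 0 - z 3‖ ^ 2 *
    ‖z 1 - z 2‖ ^ 2 * ‖z 1 - z 3‖ ^ 2 * ‖z 2 - z 3‖ ^ 2 := by
  rw [Delta_eq]
  simp only [Fin.prod_univ_four]
  rw [norm_sub_rev (z 1) (z 0), norm_sub_rev (z 2) (z 0), norm_sub_rev (z 3) (z 0),
    norm_sub_rev (z 2) (z 1), norm_sub_rev (z 3) (z 1), norm_sub_rev (z 3) (z 2)]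
  simp
  ring

/-- four distinct labels give a permutation -/
lemma perm_of_labels {i j k l : Fin 4} (hij : i ≠ j) (hik : i ≠ k) (hil : i ≠ l) (hjk : j ≠ k)
    (hjl : j ≠ l) (hkl : k ≠ l) :
    ∃ σ : Equiv.Perm (Fin 4), σ 0 = i ∧ σ 1 = j ∧ σ 2 = k ∧ σ 3 = l := by
  have hinj : Function.Injective (![i, j, k, l] : Fin 4 → Fin 4) := by
    intro x y hxy
    fin_cases x <;> fin_cases y <;> simp_all [eq_comm]
  exact ⟨Equiv.ofBijective _ (Finite.injective_iff_bijective.1 hinj), rfl, rfl, rfl, rfl⟩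

/-- the diameter graph of a maximiser on four points contains a spanning path or star -/
lemma path_or_star {z : Fin 4 → ℂ} (hz : IsMaximiser z) : ∃ σ : Equiv.Perm (Fin 4),
    (‖z (σ 0) - z (σ 1)‖ = 2 ∧ ‖z (σ 1) - z (σ 2)‖ = 2 ∧ ‖z (σ 2) - z (σ 3)‖ = 2) ∨
    (‖z (σ 0) - z (σ 1)‖ = 2 ∧ ‖z (σ 0) - z (σ 2)‖ = 2 ∧ ‖z (σ 0) - z (σ 3)‖ = 2) := by
  have key : ∃ i j k l : Fin 4, (i ≠ j ∧ i ≠ k ∧ i ≠ l ∧ j ≠ k ∧ j ≠ l ∧ k ≠ l) ∧
      ((‖z i - z j‖ = 2 ∧ ‖z j - z k‖ = 2 ∧ ‖z k - z l‖ = 2) ∨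
        (‖z i - z j‖ = 2 ∧ ‖z i - z k‖ = 2 ∧ ‖z i - z l‖ = 2)) := by
    obtain ⟨a, ha, j, hj, h1⟩ := cut hz {0} (i := 0) (j := 1) (by simp) (by simp)
    rw [Finset.mem_singleton] at ha hj
    subst ha
    obtain ⟨t, ht⟩ : ∃ t : Fin 4, t ∉ ({0, j} : Finset (Fin 4)) := by
      by_contra hcon
      push Not at hcon
      have h2 : (univ : Finset (Fin 4)).card ≤ ({0, j} : Finset (Fin 4)).card :=
        Finset.card_le_card fun x _ => hcon x
      have h3 := Finset.card_le_two (a := (0 : Fin 4)) (b := j)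
      simp at h2
      omega
    obtain ⟨b, hb, k, hk, h2⟩ := cut hz {0, j} (i := 0) (j := t) (by simp) ht
    obtain ⟨t', ht'⟩ : ∃ t : Fin 4, t ∉ ({0, j, k} : Finset (Fin 4)) := by
      by_contra hcon
      push Not at hcon
      have h2 : (univ : Finset (Fin 4)).card ≤ ({0, j, k} : Finset (Fin 4)).card :=
        Finset.card_le_card fun x _ => hcon x
      have h3 := Finset.card_le_three (a := (0 : Fin 4)) (b := j) (c := k)
      simp at h2
      omega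
    obtain ⟨c, hc, l, hl, h3⟩ := cut hz {0, j, k} (i := 0) (j := t') (by simp) ht'
    simp only [Finset.mem_insert, Finset.mem_singleton, not_or] at hb hk hc hl
    obtain ⟨hk0, hkj⟩ := hk
    obtain ⟨hl0, hlj, hlk⟩ := hl
    rcases hb with rfl | rfl
    · rcases hc with rfl | rfl | rfl
      · exact ⟨0, j, k, l, ⟨Ne.symm hj, Ne.symm hk0, Ne.symm hl0, Ne.symm hkj, Ne.symm hlj,
          Ne.symm hlk⟩, Or.inr ⟨h1, h2, h3⟩⟩
      · exact ⟨l, c, 0, k, ⟨hlj, hl0, hlk, hj, Ne.symm hkj, Ne.symm hk0⟩,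
          Or.inl ⟨by rw [norm_sub_rev]; exact h3, by rw [norm_sub_rev]; exact h1, h2⟩⟩
      · exact ⟨j, 0, c, l, ⟨hj, Ne.symm hkj, Ne.symm hlj, Ne.symm hk0, Ne.symm hl0, Ne.symm hlk⟩,
          Or.inl ⟨by rw [norm_sub_rev]; exact h1, h2, h3⟩⟩
    · rcases hc with rfl | rfl | rfl
      · exact ⟨l, 0, b, k, ⟨hl0, hlj, hlk, Ne.symm hj, Ne.symm hk0, Ne.symm hkj⟩,
          Or.inl ⟨by rw [norm_sub_rev]; exact h3, h1, h2⟩⟩
      · exact ⟨c, 0, k, l, ⟨hj, Ne.symm hkj, Ne.symm hlj, Ne.symm hk0, Ne.symm hl0, Ne.symm hlk⟩,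
          Or.inr ⟨by rw [norm_sub_rev]; exact h1, h2, h3⟩⟩
      · exact ⟨0, b, c, l, ⟨Ne.symm hj, Ne.symm hk0, Ne.symm hl0, Ne.symm hkj, Ne.symm hlj,
          Ne.symm hlk⟩, Or.inl ⟨h1, h2, h3⟩⟩
  obtain ⟨i, j, k, l, ⟨a1, a2, a3, a4, a5, a6⟩, h⟩ := key
  obtain ⟨σ, b1, b2, b3, b4⟩ := perm_of_labels a1 a2 a3 a4 a5 a6
  refine ⟨σ, ?_⟩
  rw [b1, b2, b3, b4]
  exact h

lemma side_sq : (√6 - √2) ^ 2 = 4 * (2 - √3) ∧ 0 ≤ √6 - √2 := by
  have h6 : √6 ^ 2 = 6 := Real.sq_sqrt (by norm_num)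
  have h2 : √2 ^ 2 = 2 := Real.sq_sqrt (by norm_num)
  have h62 : √6 * √2 = 2 * √3 := by
    rw [← Real.sqrt_mul (by norm_num)]
    have : (6 * 2 : ℝ) = 2 ^ 2 * 3 := by norm_num
    rw [this, Real.sqrt_mul (by norm_num), Real.sqrt_sq (by norm_num)]
  constructor
  · have : (√6 - √2) ^ 2 = √6 ^ 2 + √2 ^ 2 - 2 * (√6 * √2) := by ring
    rw [this, h6, h2, h62]; ring
  · linarith [Real.sqrt_le_sqrt (by norm_num : (2 : ℝ) ≤ 6)]

lemma eq_side {x : ℂ} (h : ‖x‖ ^ 2 = 4 * (2 - √3)) : ‖x‖ = √6 - √2 := by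
  rw [← side_sq.1] at h
  exact (sq_eq_sq₀ (norm_nonneg _) side_sq.2).1 h

lemma eq_two {x : ℂ} (h : ‖x‖ ^ 2 = 4) : ‖x‖ = 2 := by
  have : ‖x‖ ^ 2 = 2 ^ 2 := by rw [h]; norm_num
  exact (sq_eq_sq₀ (norm_nonneg _) (by norm_num)).1 this

/-- all maximisers on four points -/
lemma maximiser_four {z : Fin 4 → ℂ} (hz : IsMaximiser z) :
    Delta z ≤ 4096 * (2 - √3) ^ 2 ∧ (Delta z = 4096 * (2 - √3) ^ 2 →
      ∃ σ : Equiv.Perm (Fin 4), IsTriangleWithArcMidpoint (z ∘ σ)) := by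
  obtain ⟨σ, h⟩ := path_or_star hz
  have hD : Delta z = Delta (z ∘ σ) := (Delta_perm z σ).symm
  rw [hD, Delta_four]
  simp only [Function.comp]
  have hσ : ∀ i j, i ≠ j → σ i ≠ σ j := fun i j h h' => h (σ.injective h')
  rcases h with ⟨h1, h2, h3⟩ | ⟨h1, h2, h3⟩
  · obtain ⟨k1, k2⟩ := path4 h1 h2 h3 (hz.1 _ _) (hz.1 _ _) (hz.1 _ _)
    rw [h1, h2, h3]
    constructor
    · linarith
    · intro heq
      obtain ⟨k3, k4⟩ := k2 (by linarith)
      rcases k3 with ⟨k5, k6⟩ | ⟨k5, k6⟩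
      · -- triangle 0 1 2, fourth point adjacent to 2
        obtain ⟨τ, b1, b2, b3, b4⟩ := perm_of_labels (hσ 2 0 (by decide)) (hσ 2 1 (by decide))
          (hσ 2 3 (by decide)) (hσ 0 1 (by decide)) (hσ 0 3 (by decide)) (hσ 1 3 (by decide))
        refine ⟨τ, ?_⟩
        simp only [IsTriangleWithArcMidpoint, Function.comp, b1, b2, b3, b4]
        exact ⟨by rw [norm_sub_rev]; exact eq_two k5, by rw [norm_sub_rev]; exact h2, h1, h3,
          eq_side k4, eq_side k6⟩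
      · -- triangle 1 2 3, fourth point 0 adjacent to 1
        obtain ⟨τ, b1, b2, b3, b4⟩ := perm_of_labels (hσ 1 2 (by decide)) (hσ 1 3 (by decide))
          (hσ 1 0 (by decide)) (hσ 2 3 (by decide)) (hσ 2 0 (by decide)) (hσ 3 0 (by decide))
        refine ⟨τ, ?_⟩
        simp only [IsTriangleWithArcMidpoint, Function.comp, b1, b2, b3, b4]
        exact ⟨h2, eq_two k6, h3, by rw [norm_sub_rev]; exact h1,
          by rw [norm_sub_rev]; exact eq_side k5, by rw [norm_sub_rev]; exact eq_side k4⟩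
  · rw [h1, h2, h3]
    -- choose the largest of the other three distances
    rcases le_total ‖z (σ 1) - z (σ 3)‖ ‖z (σ 1) - z (σ 2)‖ with m1 | m1
    · rcases le_total ‖z (σ 2) - z (σ 3)‖ ‖z (σ 1) - z (σ 2)‖ with m2 | m2
      · obtain ⟨k1, k2⟩ := star4 h1 h2 h3 (hz.1 _ _) m1 m2
        refine ⟨by linarith, fun heq => ?_⟩
        obtain ⟨k3, k4, k5⟩ := k2 (by linarith)
        refine ⟨σ, ?_⟩
        simp only [IsTriangleWithArcMidpoint, Function.comp]
        exact ⟨h1, h2, eq_two k3, h3, eq_side k4, eq_side k5⟩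
      · -- largest is 2 3
        obtain ⟨k1, k2⟩ := star4 h2 h3 h1 (hz.1 _ _)
          (by rw [norm_sub_rev (z (σ 2)) (z (σ 1))]; exact m2)
          (by rw [norm_sub_rev (z (σ 3)) (z (σ 1))]; exact m1.trans m2)
        rw [norm_sub_rev (z (σ 2)) (z (σ 1)), norm_sub_rev (z (σ 3)) (z (σ 1))] at k1 k2
        refine ⟨by linarith, fun heq => ?_⟩
        obtain ⟨k3, k4, k5⟩ := k2 (by linarith)
        obtain ⟨τ, b1, b2, b3, b4⟩ := perm_of_labels (hσ 0 2 (by decide)) (hσ 0 3 (by decide))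
          (hσ 0 1 (by decide)) (hσ 2 3 (by decide)) (hσ 2 1 (by decide)) (hσ 3 1 (by decide))
        refine ⟨τ, ?_⟩
        simp only [IsTriangleWithArcMidpoint, Function.comp, b1, b2, b3, b4]
        exact ⟨h2, h3, eq_two k3, h1, by rw [norm_sub_rev]; exact eq_side k4,
          by rw [norm_sub_rev]; exact eq_side k5⟩
    · rcases le_total ‖z (σ 2) - z (σ 3)‖ ‖z (σ 1) - z (σ 3)‖ with m2 | m2
      · -- largest is 1 3
        obtain ⟨k1, k2⟩ := star4 h1 h3 h2 (hz.1 _ _) m1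
          (by rw [norm_sub_rev (z (σ 3)) (z (σ 2))]; exact m2)
        rw [norm_sub_rev (z (σ 3)) (z (σ 2))] at k1 k2
        refine ⟨by linarith, fun heq => ?_⟩
        obtain ⟨k3, k4, k5⟩ := k2 (by linarith)
        obtain ⟨τ, b1, b2, b3, b4⟩ := perm_of_labels (hσ 0 1 (by decide)) (hσ 0 3 (by decide))
          (hσ 0 2 (by decide)) (hσ 1 3 (by decide)) (hσ 1 2 (by decide)) (hσ 3 2 (by decide))
        refine ⟨τ, ?_⟩
        simp only [IsTriangleWithArcMidpoint, Function.comp, b1, b2, b3, b4]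
        exact ⟨h1, h3, eq_two k3, h2, eq_side k4, by rw [norm_sub_rev]; exact eq_side k5⟩
      · obtain ⟨k1, k2⟩ := star4 h2 h3 h1 (hz.1 _ _)
          (by rw [norm_sub_rev (z (σ 2)) (z (σ 1))]; exact m1.trans m2)
          (by rw [norm_sub_rev (z (σ 3)) (z (σ 1))]; exact m2)
        rw [norm_sub_rev (z (σ 2)) (z (σ 1)), norm_sub_rev (z (σ 3)) (z (σ 1))] at k1 k2
        refine ⟨by linarith, fun heq => ?_⟩
        obtain ⟨k3, k4, k5⟩ := k2 (by linarith)
        obtain ⟨τ, b1, b2, b3, b4⟩ := perm_of_labels (hσ 0 2 (by decide)) (hσ 0 3 (by decide))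
          (hσ 0 1 (by decide)) (hσ 2 3 (by decide)) (hσ 2 1 (by decide)) (hσ 3 1 (by decide))
        refine ⟨τ, ?_⟩
        simp only [IsTriangleWithArcMidpoint, Function.comp, b1, b2, b3, b4]
        exact ⟨h2, h3, eq_two k3, h1, by rw [norm_sub_rev]; exact eq_side k4,
          by rw [norm_sub_rev]; exact eq_side k5⟩

lemma triangle_Delta {z : Fin 4 → ℂ} (h : IsTriangleWithArcMidpoint z) :
    Delta z = 4096 * (2 - √3) ^ 2 := by
  obtain ⟨h1, h2, h3, h4, h5, h6⟩ := h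
  rw [Delta_four, h1, h2, h3, h4, h5, h6, side_sq.1]
  ring

lemma triangle_adm {z : Fin 4 → ℂ} (h : IsTriangleWithArcMidpoint z) : Adm z := by
  obtain ⟨h1, h2, h3, h4, h5, h6⟩ := h
  have hs : √6 - √2 ≤ 2 := by
    have h7 : √3 ^ 2 = 3 := sqrt_facts.1
    have h8 : (√6 - √2) ^ 2 ≤ 2 ^ 2 := by
      rw [side_sq.1]
      have : 1 ≤ √3 := by rw [Real.le_sqrt' (by norm_num)]; norm_num
      linarith
    exact (sq_le_sq₀ side_sq.2 (by norm_num)).1 h8
  intro i j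
  fin_cases i <;> fin_cases j <;> simp only [Fin.zero_eta, Fin.mk_one, Fin.reduceFinMk, sub_self, norm_zero] <;>
    first
    | exact h1.le
    | exact h2.le
    | exact h3.le
    | exact h4.le
    | exact h5.le.trans hs
    | exact h6.le.trans hs
    | (rw [norm_sub_rev]; exact h1.le)
    | (rw [norm_sub_rev]; exact h2.le)
    | (rw [norm_sub_rev]; exact h3.le)
    | (rw [norm_sub_rev]; exact h4.le)
    | (rw [norm_sub_rev]; exact h5.le.trans hs)
    | (rw [norm_sub_rev]; exact h6.le.trans hs)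
    | norm_num

/-- an explicit configuration -/
noncomputable def cfg : Fin 4 → ℂ := ![0, 2, ⟨1, √3⟩, ⟨√3, 1⟩]

lemma cfg_triangle : IsTriangleWithArcMidpoint cfg := by
  have h3 : √3 ^ 2 = 3 := sqrt_facts.1
  have e0 : cfg 0 = 0 := rfl
  have e1 : cfg 1 = 2 := rfl
  have e2 : cfg 2 = ⟨1, √3⟩ := rfl
  have e3 : cfg 3 = ⟨√3, 1⟩ := rfl
  refine ⟨eq_two ?_, eq_two ?_, eq_two ?_, eq_two ?_, eq_side ?_, eq_side ?_⟩ <;>
    rw [norm_sq_eq] <;> simp only [e0, e1, e2, e3, Complex.sub_re, Complex.sub_im, Complex.zero_re,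
      Complex.zero_im, Complex.re_ofNat, Complex.im_ofNat]
  · norm_num
  · linear_combination h3
  · linear_combination h3
  · linear_combination h3
  · linear_combination h3
  · linear_combination 2 * h3

lemma M_eq {n : ℕ} {z : Fin n → ℂ} (hz : IsMaximiser z) : M n = Delta z := by
  have : IsGreatest {x | ∃ z : Fin n → ℂ, Adm z ∧ x = Delta z} (Delta z) :=
    ⟨⟨z, hz.1, rfl⟩, by rintro x ⟨w, hw, rfl⟩; exact hz.2 w hw⟩
  exact this.csSup_eq

lemma maximiser_val {z : Fin 4 → ℂ} (hz : IsMaximiser z) : Delta z = 4096 * (2 - √3) ^ 2 :=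
  le_antisymm (maximiser_four hz).1
    (triangle_Delta cfg_triangle ▸ hz.2 cfg (triangle_adm cfg_triangle))

/-- **Main theorem.** (1) `M(4) = 28672 - 16384 √3`. (2) The maximisers for `n = 4` are, up to the
order of the points, exactly the quadruples which consist of the vertices of an equilateral triangle
with side `2` and of a point at distance `2` from one of the vertices and at distance `√6 - √2` from
the other two. (3) For all `n ≥ 1` and every maximiser, the graph of the pairs of points at distance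
exactly `2` is connected, and (4) there are at least `n - 1` such pairs. -/
theorem result :
    M 4 = 28672 - 16384 * √3 ∧
    (∀ z : Fin 4 → ℂ, IsMaximiser z ↔ ∃ σ : Equiv.Perm (Fin 4), IsTriangleWithArcMidpoint (z ∘ σ)) ∧
    ∀ n : ℕ, 1 ≤ n → (∃ z : Fin n → ℂ, IsMaximiser z) ∧ ∀ z : Fin n → ℂ, IsMaximiser z →
      (diameterGraph z).Connected ∧ n - 1 ≤ (diameterGraph z).edgeSet.ncard := by
  refine ⟨?_, fun z => ⟨fun hz => (maximiser_four hz).2 (maximiser_val hz), ?_⟩, ?_⟩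
  · obtain ⟨z, hz⟩ := exists_maximiser 3
    rw [M_eq hz, maximiser_val hz]
    linear_combination 4096 * sqrt_facts.1
  · rintro ⟨σ, hσ⟩
    obtain ⟨y, hy⟩ := exists_maximiser 3
    have h1 : Delta z = 4096 * (2 - √3) ^ 2 := by rw [← Delta_perm z σ]; exact triangle_Delta hσ
    refine ⟨fun i j => ?_, fun w hw => ?_⟩
    · have := triangle_adm hσ (σ.symm i) (σ.symm j)
      simpa using this
    · rw [h1, ← maximiser_val hy]
      exact hy.2 w hw
  · intro n hn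
    obtain ⟨m, rfl⟩ : ∃ m, n = m + 1 := ⟨n - 1, by omega⟩
    refine ⟨exists_maximiser m, fun z hz => ?_⟩
    have hc := diameterGraph_connected hn hz
    refine ⟨hc, ?_⟩
    have := hc.card_vert_le_card_edgeSet_add_one
    rw [Nat.card_eq_fintype_card, Fintype.card_fin, Nat.card_coe_set_eq] at this
    omega

end Pool.Agent.Results.MP_e1dd62_co.FourPoints
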